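import Pool.Agent.H378R2.PS.Defs
import Pool.Agent.H201R2.PS.P3

set_option autoImplicit false

/-! # Project PT (helper378), task T1: integers without prime factors in `(e^{V1 y}, y]` -/

namespace Pool.Agent.H378R2.PT

open Finset Pool.Agent.H378R2.PS

lemma T1_log_le_sqrt {x : ℝ} (hx : 0 < x) : Real.log x ≤ Real.sqrt x := by
  have h1 : 0 < Real.sqrt x := Real.sqrt_pos.2 hx
  set t := Real.sqrt (Real.sqrt x) with ht
  have ht0 : 0 < t := Real.sqrt_pos.2 h1
  have h2 : t ^ 2 = Real.sqrt x := Real.sq_sqrt h1.le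
  have h3 : Real.sqrt x ^ 2 = x := Real.sq_sqrt hx.le
  have h4 : Real.log x = 4 * Real.log t := by
    have : x = t ^ 4 := by
      calc x = Real.sqrt x ^ 2 := h3.symm
        _ = (t ^ 2) ^ 2 := by rw [h2]
        _ = t ^ 4 := by ring
    rw [this, Real.log_pow]
    norm_num
  have h5 := Real.log_le_sub_one_of_pos ht0
  rw [h4, ← h2]
  nlinarith [sq_nonneg (t - 2)]

lemma T1_pi {x : ℝ} (hx : 2 ≤ x) : (Nat.primeCounting ⌊x⌋₊ : ℝ) ≤ 4 * (x / Real.log x) := by
  have hx0 : 0 < x := by linarith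
  have h1 := Chebyshev.pi_le_log4_mul_div (x := x) (by linarith)
  have hl : 0 < Real.log x := Real.log_pos (by linarith)
  have hs : 0 < Real.sqrt x := Real.sqrt_pos.2 hx0
  have h2 : Real.log (Real.sqrt x) = Real.log x / 2 := Real.log_sqrt hx0.le
  have h3 : Real.sqrt x ≤ x / Real.log x := by
    rw [le_div_iff₀ hl]
    have := mul_le_mul_of_nonneg_left (T1_log_le_sqrt hx0) hs.le
    rw [Real.mul_self_sqrt hx0.le] at this
    exact this
  have h4 : Real.log 4 ≤ 3 / 2 := by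
    have : (4 : ℝ) = 2 ^ 2 := by norm_num
    rw [this, Real.log_pow]
    have := Real.log_two_lt_d9
    push_cast
    linarith
  have h5 : Real.log 4 * x / Real.log (Real.sqrt x) = 2 * Real.log 4 * (x / Real.log x) := by
    rw [h2]
    field_simp
  rw [h5] at h1
  have h6 : 0 ≤ x / Real.log x := by positivity
  nlinarith

open Classical in
theorem rough_count (A : ℕ) : ∃ C : ℝ, 0 < C ∧ ∃ y₀ : ℝ, ∀ y : ℝ, y₀ ≤ y → ∀ W : ℕ, y ≤ W →
    (W : ℝ) ≤ y * (Real.log y) ^ A →
    (((Finset.Icc 1 W).filter (fun m : ℕ => ∀ p : ℕ, p.Prime → V1 y < Real.log p → (p : ℝ) ≤ y →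
      ¬ p ∣ m)).card : ℝ) ≤ C * W * Real.log (Real.log y) / Real.log y := by
  obtain ⟨y₁, hsm⟩ := smooth8
  refine ⟨5 + 4 * A, by positivity, max y₁ (Real.exp (Real.exp 1)), fun y hy W hyW hWy => ?_⟩
  have hy1 := (le_max_left _ _).trans hy
  have hy2 := (le_max_right _ _).trans hy
  have hy0 : 0 < y := (Real.exp_pos _).trans_le hy2
  have hly : Real.exp 1 ≤ Real.log y := by
    rw [← Real.log_exp (Real.exp 1)]; exact Real.log_le_log (Real.exp_pos _) hy2
  have he1 : 2 < Real.exp 1 := by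
    have := Real.exp_one_gt_d9
    linarith
  have hly1 : 1 ≤ Real.log y := by linarith
  have hly0 : 0 < Real.log y := by linarith
  have ht1 : 1 ≤ Real.log (Real.log y) := by
    rw [← Real.log_exp 1]; exact Real.log_le_log (Real.exp_pos _) hly
  set t := Real.log (Real.log y) with ht
  have hy3 : 2 ≤ y := by
    have h1 := Real.log_le_sub_one_of_pos hy0
    linarith
  have hW0 : (0 : ℝ) < W := hy0.trans_le hyW
  set N : ℕ := ⌊(W : ℝ) / y⌋₊ with hN
  have hN1 : 1 ≤ N := by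
    rw [hN, Nat.one_le_floor_iff, one_le_div hy0]
    exact hyW
  have hNle : (N : ℝ) ≤ (W : ℝ) / y := Nat.floor_le (by positivity)
  have hNA : (N : ℝ) ≤ Real.log y ^ A := by
    refine hNle.trans ?_
    rw [div_le_iff₀ hy0]
    linarith
  have hlN : Real.log N ≤ A * t := by
    have h1 := Real.log_le_log (by exact_mod_cast hN1) hNA
    rwa [Real.log_pow] at h1
  set S1 : Finset ℕ := (Finset.Icc 1 W).filter (fun m : ℕ => ∀ p : ℕ, p.Prime → p ∣ m →
      Real.log p ≤ V1 y) with hS1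
  have hsub : (Finset.Icc 1 W).filter (fun m : ℕ => ∀ p : ℕ, p.Prime → V1 y < Real.log p →
      (p : ℝ) ≤ y → ¬ p ∣ m) ⊆
      S1 ∪ (Finset.Icc 1 N).biUnion (fun n => (Nat.primesLE ⌊(W : ℝ) / n⌋₊).image
        (fun l => n * l)) := by
    intro m hm
    rw [mem_filter, mem_Icc] at hm
    obtain ⟨⟨hm1, hmW⟩, hmp⟩ := hm
    rw [mem_union]
    by_cases hall : ∀ p : ℕ, p.Prime → p ∣ m → Real.log p ≤ V1 y
    · left
      rw [hS1, mem_filter, mem_Icc]
      exact ⟨⟨hm1, hmW⟩, hall⟩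
    · right
      push Not at hall
      obtain ⟨l, hl, hlm, hll⟩ := hall
      have hly : y < l := by
        by_contra hcon
        push Not at hcon
        exact hmp l hl hll hcon hlm
      obtain ⟨n, rfl⟩ := hlm
      have hn1 : 1 ≤ n := by
        rcases Nat.eq_zero_or_pos n with rfl | h
        · simp at hm1
        · exact h
      have hn0 : (0 : ℝ) < n := by exact_mod_cast hn1
      have hlnW : (l : ℝ) * n ≤ W := by exact_mod_cast hmW
      rw [mem_biUnion]
      refine ⟨n, ?_, ?_⟩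
      · rw [mem_Icc]
        refine ⟨hn1, ?_⟩
        rw [hN]
        apply Nat.le_floor
        rw [le_div_iff₀ hy0]
        nlinarith
      · rw [mem_image]
        refine ⟨l, ?_, mul_comm n l⟩
        rw [Nat.mem_primesLE]
        refine ⟨?_, hl⟩
        apply Nat.le_floor
        rw [le_div_iff₀ hn0]
        exact hlnW
  have hcard : (((Finset.Icc 1 W).filter (fun m : ℕ => ∀ p : ℕ, p.Prime → V1 y < Real.log p →
      (p : ℝ) ≤ y → ¬ p ∣ m)).card : ℝ) ≤ (W : ℝ) / Real.log y ^ 8 +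
      ∑ n ∈ Finset.Icc 1 N, 4 * W / Real.log y * ((n : ℝ))⁻¹ := by
    have h1 := (card_le_card hsub).trans (card_union_le _ _)
    have h2 : ((Finset.Icc 1 N).biUnion (fun n => (Nat.primesLE ⌊(W : ℝ) / n⌋₊).image
        (fun l => n * l))).card ≤ ∑ n ∈ Finset.Icc 1 N, (Nat.primesLE ⌊(W : ℝ) / n⌋₊).card :=
      card_biUnion_le.trans (sum_le_sum fun n _ => card_image_le)
    have h3 : (((Finset.Icc 1 W).filter (fun m : ℕ => ∀ p : ℕ, p.Prime → V1 y < Real.log p →
      (p : ℝ) ≤ y → ¬ p ∣ m)).card : ℝ) ≤ (S1.card : ℝ) +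
        ∑ n ∈ Finset.Icc 1 N, ((Nat.primesLE ⌊(W : ℝ) / n⌋₊).card : ℝ) := by
      have h4 := h1.trans (Nat.add_le_add_left h2 _)
      exact_mod_cast h4
    refine h3.trans (add_le_add (hsm y hy1 W hyW) (sum_le_sum fun n hn => ?_))
    rw [mem_Icc] at hn
    have hn0 : (0 : ℝ) < n := by exact_mod_cast hn.1
    have hWn : y ≤ (W : ℝ) / n := by
      rw [le_div_iff₀ hn0]
      have h5 : (n : ℝ) ≤ (W : ℝ) / y := (by exact_mod_cast hn.2 : (n : ℝ) ≤ N).trans hNle
      rw [le_div_iff₀ hy0] at h5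
      linarith
    rw [Nat.primesLE_card_eq_primeCounting]
    refine (T1_pi (hy3.trans hWn)).trans ?_
    have h6 : Real.log y ≤ Real.log ((W : ℝ) / n) := Real.log_le_log hy0 hWn
    calc 4 * ((W : ℝ) / n / Real.log ((W : ℝ) / n)) ≤ 4 * ((W : ℝ) / n / Real.log y) := by
          gcongr
      _ = 4 * W / Real.log y * ((n : ℝ))⁻¹ := by field_simp
  have hharm : ∑ n ∈ Finset.Icc 1 N, ((n : ℝ))⁻¹ ≤ 1 + Real.log N := by
    have h1 := harmonic_le_one_add_log N
    rw [harmonic_eq_sum_Icc] at h1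
    push_cast at h1
    exact h1
  rw [← Finset.mul_sum] at hcard
  refine hcard.trans ?_
  have h7 : (W : ℝ) / Real.log y ^ 8 ≤ W * t / Real.log y := by
    rw [div_le_div_iff₀ (by positivity) hly0]
    have h8 : Real.log y ≤ t * Real.log y ^ 8 := by
      have h9 : Real.log y ^ 1 ≤ Real.log y ^ 8 := pow_le_pow_right₀ hly1 (by norm_num)
      nlinarith
    nlinarith
  have h10 : 4 * (W : ℝ) / Real.log y * ∑ n ∈ Finset.Icc 1 N, ((n : ℝ))⁻¹ ≤
      4 * (W : ℝ) / Real.log y * (t + A * t) := by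
    apply mul_le_mul_of_nonneg_left _ (by positivity)
    linarith
  calc (W : ℝ) / Real.log y ^ 8 + 4 * W / Real.log y * ∑ n ∈ Finset.Icc 1 N, ((n : ℝ))⁻¹
      ≤ W * t / Real.log y + 4 * (W : ℝ) / Real.log y * (t + A * t) := add_le_add h7 h10
    _ = (5 + 4 * A) * W * t / Real.log y := by ring

end Pool.Agent.H378R2.PT
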